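import Pool.Agent.Q298.MB.Stm

/-!
# Project MB (helper298), job TOP: nested intervals
-/

set_option autoImplicit false

namespace Pool.Agent.Q121.MB

open Pool.Agent.Q298.MB

theorem step {b : ℕ} (hb : 2 ≤ b) {α β : ℝ} (hα : 0 < α) (hαβ : α < β) {l w : ℕ} (hw : w < b ^ l) :
    ∃ (N r : ℕ), 0 < N ∧ α * (b : ℝ) ^ r ≤ ((N * b ^ l + w : ℕ) : ℝ) ∧
      ((N * b ^ l + w : ℕ) : ℝ) + 1 ≤ β * (b : ℝ) ^ r := by
  have hb1 : (1 : ℝ) < b := by exact_mod_cast hb
  have hb0 : (0 : ℝ) < b := by linarith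
  obtain ⟨r₀, hr₀⟩ := pow_unbounded_of_one_lt (2 / (β - α)) hb1
  have h1 : 2 < (β - α) * (b : ℝ) ^ r₀ := by
    rw [div_lt_iff₀ (by linarith)] at hr₀
    linarith
  have hbr : (0 : ℝ) < (b : ℝ) ^ r₀ := by positivity
  have hbl : (0 : ℝ) < (b : ℝ) ^ l := by positivity
  set N := ⌈α * (b : ℝ) ^ r₀⌉₊ with hN
  have h2 : α * (b : ℝ) ^ r₀ ≤ N := Nat.le_ceil _
  have h3 : (N : ℝ) < α * (b : ℝ) ^ r₀ + 1 := Nat.ceil_lt_add_one (by positivity)
  have hw' : (w : ℝ) + 1 ≤ (b : ℝ) ^ l := by exact_mod_cast hw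
  refine ⟨N, r₀ + l, Nat.ceil_pos.2 (by positivity), ?_, ?_⟩
  · push_cast
    rw [pow_add, ← mul_assoc]
    have h4 : α * (b : ℝ) ^ r₀ * (b : ℝ) ^ l ≤ N * (b : ℝ) ^ l := mul_le_mul_of_nonneg_right h2 hbl.le
    have h5 : (0 : ℝ) ≤ w := Nat.cast_nonneg w
    linarith
  · push_cast
    rw [pow_add, ← mul_assoc]
    have h4 : (N : ℝ) + 1 ≤ β * (b : ℝ) ^ r₀ := by nlinarith
    have h5 : ((N : ℝ) + 1) * (b : ℝ) ^ l ≤ β * (b : ℝ) ^ r₀ * (b : ℝ) ^ l :=
      mul_le_mul_of_nonneg_right h4 hbl.le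
    nlinarith

theorem t_TOP : J_TOP := by
  classical
  intro k b hb C hC
  have key : ∀ s : Finset (Fin k), ∃ (α β : ℝ) (r U : Fin k → ℕ), 0 < α ∧ α < β ∧ ∀ j ∈ s,
      0 < U j ∧ C j (U j) ∧ (U j : ℝ) ≤ α * (b j : ℝ) ^ (r j) ∧ β * (b j : ℝ) ^ (r j) ≤ U j + 1 := by
    intro s
    induction s using Finset.induction_on with
    | empty => exact ⟨1, 2, fun _ => 0, fun _ => 0, one_pos, one_lt_two, by simp⟩
    | insert j s hj ih =>
      obtain ⟨α, β, r, U, hα, hαβ, h⟩ := ih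
      obtain ⟨l, w, hw, hCw⟩ := hC j
      obtain ⟨N, r', hN, h1, h2⟩ := step (hb j) hα hαβ hw
      have hb0 : (0 : ℝ) < b j := by exact_mod_cast (by have := hb j; omega : 0 < b j)
      have hbr : (0 : ℝ) < (b j : ℝ) ^ r' := by positivity
      set V : ℕ := N * b j ^ l + w with hV
      have hVpos : 0 < V := by
        have h3 : 0 < N * b j ^ l := Nat.mul_pos hN (Nat.pow_pos (by have := hb j; omega))
        omega
      have hVR : (0 : ℝ) < V := by exact_mod_cast hVpos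
      have e1 : α ≤ (V : ℝ) / (b j : ℝ) ^ r' := by rwa [le_div_iff₀ hbr]
      have e2 : ((V : ℝ) + 1) / (b j : ℝ) ^ r' ≤ β := by rwa [div_le_iff₀ hbr]
      refine ⟨(V : ℝ) / (b j : ℝ) ^ r', ((V : ℝ) + 1) / (b j : ℝ) ^ r', Function.update r j r',
        Function.update U j V, by positivity, by gcongr; linarith, fun i hi => ?_⟩
      by_cases hij : i = j
      · subst hij
        rw [Function.update_self, Function.update_self]
        refine ⟨hVpos, hCw N hN, ?_, ?_⟩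
        · rw [div_mul_cancel₀ _ hbr.ne']
        · rw [div_mul_cancel₀ _ hbr.ne']
      · rw [Function.update_of_ne hij, Function.update_of_ne hij]
        obtain ⟨g1, g2, g3, g4⟩ := h i ((Finset.mem_insert.1 hi).resolve_left hij)
        have hbi : (0 : ℝ) ≤ (b i : ℝ) ^ r i := by positivity
        exact ⟨g1, g2, g3.trans (mul_le_mul_of_nonneg_right e1 hbi),
          (mul_le_mul_of_nonneg_right e2 hbi).trans g4⟩
  obtain ⟨α, β, r, U, hα, hαβ, h⟩ := key Finset.univ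
  refine ⟨(α + β) / 2, r, U, by linarith, fun j => ?_⟩
  obtain ⟨g1, g2, g3, g4⟩ := h j (Finset.mem_univ j)
  have hb0 : (0 : ℝ) < b j := by exact_mod_cast (by have := hb j; omega : 0 < b j)
  have hbj : (0 : ℝ) < (b j : ℝ) ^ r j := by positivity
  exact ⟨g1, g2, by nlinarith, by nlinarith⟩

end Pool.Agent.Q121.MB
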